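import Pool.Agent.N284.EG.Regn
import Pool.Agent.W307.FK.Main

/-!
# Project EG: the upper bounds for all the moments, ordered by the minimal discriminant

Adapted from `W701/FK/Find.lean` and `W701/FK/Find1.lean` (helper701): arbitrary powers `q` and a
power of the logarithm.
-/

set_option autoImplicit false

namespace Pool.Agent.N284.EG

open Finset Pool.Agent.W262.RK Pool.Agent.W307.RT Pool.Agent.W307.RS Pool.Agent.W307.SE
open Pool.Agent.W307.FK Pool.Agent.N870.EG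

/-- from the bounds of the sums to the number of the curves of bounded height -/
lemma finalD_absq {m k : ℕ} {E : ℝ} (hE : 0 ≤ E) (hk : 1 ≤ k) (f : ℤ × ℤ → ℝ) (hL : LOW m k)
    (C : ℝ) (hC : 0 ≤ C) (C0 : ℕ) (hC0 : 1 ≤ C0)
    (hsum : ∀ Z W : ℕ, 1 ≤ W → C0 * Z ≤ W ^ k → ∀ S : Finset (ℤ × ℤ),
      (S : Set (ℤ × ℤ)) ⊆ DvS m Z →
        ∑ x ∈ S, f x ≤ C * ((W : ℝ) ^ 2 * (1 + Real.log W) ^ E)) :
    ∃ (K : ℝ) (Z0 : ℕ), 0 ≤ K ∧ ∀ Z : ℕ, Z0 ≤ Z → ∀ S : Finset (ℤ × ℤ),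
      (S : Set (ℤ × ℤ)) ⊆ DvS m Z →
        ∑ c ∈ S, f c ≤ K * ((Cv m (Z / 32)).card * (1 + Real.log Z) ^ E) := by
  classical
  obtain ⟨c, C1, T0, hc, hlow⟩ := hL
  set D := C0 * (32 * C1) + 1 with hD
  have hD1 : 1 ≤ D := by omega
  have hlC0 : 0 ≤ Real.log (C0 : ℝ) := Real.log_natCast_nonneg C0
  -- the choice of `W`
  have hWex : ∀ Z : ℕ, ∃ T : ℕ, T ^ k ≤ C0 * Z ∧ C0 * Z ≤ (T + 1) ^ k := by
    intro Z
    refine ⟨Nat.findGreatest (fun t => t ^ k ≤ C0 * Z) (C0 * Z), ?_, ?_⟩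
    · exact Nat.findGreatest_spec (P := fun t => t ^ k ≤ C0 * Z) (Nat.zero_le _)
        (by rw [zero_pow (by omega)]; exact Nat.zero_le _)
    · by_contra hcon
      push Not at hcon
      have h1 : Nat.findGreatest (fun t => t ^ k ≤ C0 * Z) (C0 * Z) + 1 ≤
          Nat.findGreatest (fun t => t ^ k ≤ C0 * Z) (C0 * Z) := by
        apply Nat.le_findGreatest
        · exact (Nat.le_self_pow (by omega) _).trans hcon.le
        · exact hcon.le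
      omega
  refine ⟨C * (4 * (D : ℝ)) ^ 2 / c * (2 + Real.log C0) ^ E, (D * (T0 + 1)) ^ k + 1,
    by positivity, fun Z hZ0 => ?_⟩
  intro S hS
  have hZ1 : 1 ≤ Z := by omega
  have hlZ : 0 ≤ Real.log (Z : ℝ) := Real.log_natCast_nonneg Z
  obtain ⟨T, hTk, hTW⟩ := hWex Z
  have hge : D * (T0 + 1) ≤ T := by
    by_contra hcon
    push Not at hcon
    have h1 : (T + 1) ^ k ≤ (D * (T0 + 1)) ^ k := Nat.pow_le_pow_left hcon k
    have h2 : Z ≤ C0 * Z := Nat.le_mul_of_pos_left _ hC0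
    omega
  have hT1 : 1 ≤ T := (Nat.mul_pos hD1 (Nat.succ_pos _)).trans_le hge
  have hlT : 1 + Real.log ((T + 1 : ℕ) : ℝ) ≤ (2 + Real.log C0) * (1 + Real.log Z) := by
    have hC0r : (0 : ℝ) < C0 := by exact_mod_cast (by omega : 0 < C0)
    have hZr : (0 : ℝ) < Z := by exact_mod_cast hZ1
    have h8 : T ≤ C0 * Z := (Nat.le_self_pow (by omega) T).trans hTk
    have h9 : Real.log ((T + 1 : ℕ) : ℝ) ≤ Real.log 2 + (Real.log C0 + Real.log Z) := by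
      rw [← Real.log_mul hC0r.ne' hZr.ne', ← Real.log_mul (by norm_num) (by positivity)]
      refine Real.log_le_log (by positivity) ?_
      have : T + 1 ≤ 2 * (C0 * Z) := by omega
      exact_mod_cast this
    have h10 : Real.log 2 ≤ 1 := by
      have := Real.log_le_sub_one_of_pos (show (0 : ℝ) < 2 by norm_num)
      linarith
    nlinarith [mul_nonneg hlC0 hlZ]
  have hlT0 : 0 ≤ Real.log ((T + 1 : ℕ) : ℝ) := Real.log_natCast_nonneg _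
  have hlTE : (1 + Real.log ((T + 1 : ℕ) : ℝ)) ^ E ≤
      (2 + Real.log C0) ^ E * (1 + Real.log Z) ^ E := by
    rw [← Real.mul_rpow (by linarith) (by linarith)]
    exact Real.rpow_le_rpow (by linarith) hlT hE
  have h1 := hsum Z (T + 1) (by omega) hTW S hS
  set T' := T / D with hT'
  have hT'0 : T0 + 1 ≤ T' := by
    rw [hT', Nat.le_div_iff_mul_le hD1, mul_comm]
    exact hge
  have h2 : T' * D ≤ T := Nat.div_mul_le_self T D
  have h3 : 32 * (C1 * T' ^ k) ≤ Z := by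
    have a1 : (T' * D) ^ k ≤ C0 * Z := (Nat.pow_le_pow_left h2 k).trans hTk
    rw [mul_pow] at a1
    have a2 : D ≤ D ^ k := Nat.le_self_pow (by omega) D
    have a3 : T' ^ k * (C0 * (32 * C1)) ≤ C0 * Z :=
      (Nat.mul_le_mul_left _ (by omega : C0 * (32 * C1) ≤ D ^ k)).trans a1
    have a4 : C0 * (32 * (C1 * T' ^ k)) ≤ C0 * Z := by
      calc C0 * (32 * (C1 * T' ^ k)) = T' ^ k * (C0 * (32 * C1)) := by ring
        _ ≤ _ := a3
    exact Nat.le_of_mul_le_mul_left a4 (by omega)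
  have h4 := hlow T' (Z / 32) (by omega) (by omega)
  have h5 : T + 1 ≤ 4 * D * T' := by
    have a1 : T < D * (T' + 1) := by
      rw [mul_comm]
      exact Nat.lt_mul_of_div_lt (by rw [← hT']; omega) hD1
    have a2 : D * (T' + 1) ≤ 2 * D * T' := by nlinarith
    have a3 : 2 * D * T' ≤ 4 * D * T' := by nlinarith
    omega
  have h6 : ((T + 1 : ℕ) : ℝ) ≤ 4 * D * T' := by exact_mod_cast h5
  have h7 : C * ((T + 1 : ℕ) : ℝ) ^ 2 ≤ C * (4 * (D : ℝ)) ^ 2 / c * (Cv m (Z / 32)).card := by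
    calc C * ((T + 1 : ℕ) : ℝ) ^ 2 ≤ C * (4 * D * T') ^ 2 := by
          apply mul_le_mul_of_nonneg_left _ hC
          exact pow_le_pow_left₀ (Nat.cast_nonneg _) h6 2
      _ = C * (4 * (D : ℝ)) ^ 2 / c * (c * (T' : ℝ) ^ 2) := by
          field_simp
      _ ≤ C * (4 * (D : ℝ)) ^ 2 / c * (Cv m (Z / 32)).card :=
          mul_le_mul_of_nonneg_left h4 (by positivity)
  calc _ ≤ C * (((T + 1 : ℕ) : ℝ) ^ 2 * (1 + Real.log ((T + 1 : ℕ) : ℝ)) ^ E) := h1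
    _ = C * ((T + 1 : ℕ) : ℝ) ^ 2 * (1 + Real.log ((T + 1 : ℕ) : ℝ)) ^ E := by ring
    _ ≤ (C * (4 * (D : ℝ)) ^ 2 / c * (Cv m (Z / 32)).card) *
        ((2 + Real.log C0) ^ E * (1 + Real.log Z) ^ E) :=
        mul_le_mul h7 hlTE (by positivity) (by positivity)
    _ = _ := by ring

lemma pow_le_of_sq_le {a b : ℕ} (q : ℕ) (h : (a : ℝ) ^ 2 ≤ (b : ℝ) ^ 2) :
    (a : ℝ) ^ q ≤ (b : ℝ) ^ q := by
  have h1 : (a : ℝ) ≤ b := (pow_le_pow_iff_left₀ (Nat.cast_nonneg a) (Nat.cast_nonneg b)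
    (by norm_num)).1 h
  exact pow_le_pow_left₀ (Nat.cast_nonneg _) h1 q

/-- the sums over the curves of bounded minimal discriminant -/
lemma sumq {q : ℕ} {E : ℝ} (hE : 0 ≤ E) (h1 : REGNQ q E) (h2 : S_SOMK) (h3 : PARF) :
    ∃ C : ℝ, 0 ≤ C ∧ ∀ Z W : ℕ, 1 ≤ W → 6 ^ 12 * Z ≤ W ^ 6 → ∀ S : Finset (ℤ × ℤ),
      (S : Set (ℤ × ℤ)) ⊆ DvS 2 Z → ∑ x ∈ S, ((SelR x.1 x.2).ncard : ℝ) ^ q ≤
        C * ((W : ℝ) ^ 2 * (1 + Real.log W) ^ E) := by
  classical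
  obtain ⟨C1, hC1, hb⟩ := h1
  obtain ⟨C2, hC2, hsom⟩ := h2 (2 * 8 ^ q)
  obtain ⟨F, hinj, hF⟩ := h3
  have hMDL : MDL := Pool.Agent.W554.RS.mdl
  have hAQ := AQ_pos q
  have hAQe : ((2 * 8 ^ q : ℕ) : ℝ) = AQ q := by
    unfold AQ
    push_cast
    ring
  -- the properties of the curves
  have key : ∀ Z, ∀ c ∈ DvS 2 Z, 1 ≤ (F c).1 ∧
      ((SelR c.1 c.2).ncard : ℝ) ^ q ≤ SSQ q nS (F c).1 (F c).2 ∧ (F c).2.1 ≠ 0 ∧
      (F c).2.2 ≠ 0 ∧ (F c).2.1 ≠ (F c).2.2 ∧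
      ((F c).1 ^ 3 * ((F c).2.1 * (F c).2.2 * ((F c).2.1 - (F c).2.2)).natAbs) ^ 2 ≤
        6 ^ 12 * Z := by
    intro Z c hc
    obtain ⟨d1, d2, d3, d4⟩ := hc
    obtain ⟨g1, g2, g3, g4, g5, e1, e2, e3, g6, g7, g8⟩ := hF c d1 d3
    obtain ⟨a1, a2, a3⟩ := Pool.Agent.W701.FK.curve_data d1 g6 g1 g3 g4 g5 g2 g7 g8
    refine ⟨g1, ?_, g3, g4, g5, ?_⟩
    · unfold SS at a2
      rw [if_pos ⟨g2, g3, g4, g5⟩] at a2
      unfold SSQ
      rw [if_pos ⟨g2, g3, g4, g5⟩]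
      exact pow_le_of_sq_le q a2
    · have b1 := (hMDL c.1 c.2 d1 d2).1
      rw [← a3] at b1
      have b2 : 6 ^ 12 * mD (Sh c.1 c.2) ≤ 6 ^ 12 * Z := Nat.mul_le_mul_left _ d4
      omega
  refine ⟨4 * 2 ^ E * C1 * C2, by positivity, ?_⟩
  intro Z W hW hZW S hS
  have hlW : 0 ≤ Real.log (W : ℝ) := Real.log_natCast_nonneg W
  have hS' : (S : Set (ℤ × ℤ)) ⊆
      {c | 4 * c.1 ^ 3 + 27 * c.2 ^ 2 ≠ 0 ∧ HasT 2 (Sh c.1 c.2)} := fun c hc =>
    ⟨(hS hc).1, (hS hc).2.2.1⟩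
  -- size
  have hsize : ∀ c ∈ S, (F c).1 ^ 3 *
      ((F c).2.1 * (F c).2.2 * ((F c).2.1 - (F c).2.2)).natAbs ≤ W ^ 3 := by
    intro c hc
    obtain ⟨_, _, _, _, _, k1⟩ := key Z c (hS hc)
    have k2 : ((F c).1 ^ 3 * ((F c).2.1 * (F c).2.2 *
        ((F c).2.1 - (F c).2.2)).natAbs) ^ 2 ≤ (W ^ 3) ^ 2 := by
      calc _ ≤ 6 ^ 12 * Z := k1
        _ ≤ W ^ 6 := hZW
        _ = (W ^ 3) ^ 2 := by ring
    exact (Nat.pow_le_pow_iff_left (by norm_num)).1 k2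
  have hgW : ∀ c ∈ S, (F c).1 ∈ Icc 1 W := by
    intro c hc
    obtain ⟨k0, _, k3, k4, k5, _⟩ := key Z c (hS hc)
    rw [mem_Icc]
    refine ⟨k0, ?_⟩
    have k6 : 1 ≤ ((F c).2.1 * (F c).2.2 * ((F c).2.1 - (F c).2.2)).natAbs := by
      rw [Nat.one_le_iff_ne_zero, Ne, Int.natAbs_eq_zero]
      exact mul_ne_zero (mul_ne_zero k3 k4) (sub_ne_zero.2 k5)
    have k7 : (F c).1 ^ 3 ≤ W ^ 3 := (Nat.le_mul_of_pos_right _ k6).trans (hsize c hc)
    exact (Nat.pow_le_pow_iff_left (by norm_num)).1 k7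
  have e1 : ∑ x ∈ S, ((SelR x.1 x.2).ncard : ℝ) ^ q ≤ ∑ x ∈ S, SSQ q nS (F x).1 (F x).2 :=
    sum_le_sum fun x hx => (key Z x (hS hx)).2.1
  have e2 : ∑ x ∈ S, SSQ q nS (F x).1 (F x).2 = ∑ t ∈ S.image F, SSQ q nS t.1 t.2 := by
    rw [sum_image (hinj.mono hS')]
  have e3 : ∑ g ∈ Icc 1 W, ∑ t ∈ (S.image F).filter (fun t => t.1 = g), SSQ q nS t.1 t.2
      = ∑ t ∈ S.image F, SSQ q nS t.1 t.2 := by
    apply sum_fiberwise_of_maps_to
    intro t ht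
    obtain ⟨c, hc, rfl⟩ := mem_image.1 ht
    exact hgW c hc
  have e4 : ∀ g ∈ Icc 1 W, ∑ t ∈ (S.image F).filter (fun t => t.1 = g), SSQ q nS t.1 t.2 ≤
      (4 * 2 ^ E * C1 * ((W : ℝ) ^ 2 * (1 + Real.log W) ^ E)) *
        (((2 * 8 ^ q : ℕ) : ℝ) ^ g.primeFactors.card / (g : ℝ) ^ 2) := by
    intro g hg
    rw [mem_Icc] at hg
    have f1 : ∑ t ∈ (S.image F).filter (fun t => t.1 = g), SSQ q nS t.1 t.2
        = ∑ t ∈ ((S.image F).filter (fun t => t.1 = g)).image Prod.snd, SSQ q nS g t := by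
      rw [sum_image]
      · apply sum_congr rfl
        intro t ht
        rw [(mem_filter.1 ht).2]
      · intro t ht t' ht' htt
        have q1 := (mem_filter.1 ht).2
        have q2 := (mem_filter.1 ht').2
        exact Prod.ext (q1.trans q2.symm) htt
    rw [f1]
    have hgz : (g : ℤ) ≠ 0 := by
      have : g ≠ 0 := by omega
      exact_mod_cast this
    have f2 := hb g hgz (W / g + 1) (Nat.le_add_left 1 _)
      (((S.image F).filter (fun t => t.1 = g)).image Prod.snd) (by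
      intro t ht
      obtain ⟨t', ht', rfl⟩ := mem_image.1 ht
      obtain ⟨ht1, ht2⟩ := mem_filter.1 ht'
      obtain ⟨c, hc, rfl⟩ := mem_image.1 ht1
      obtain ⟨k0, _, k3, k4, k5, _⟩ := key Z c (hS hc)
      refine ⟨k3, k4, k5, ?_⟩
      have q1 := hsize c hc
      rw [ht2] at q1
      have q2 : W < g * (W / g + 1) := Nat.lt_mul_div_succ W (by omega)
      have q3 : W ^ 3 < (g * (W / g + 1)) ^ 3 := Nat.pow_lt_pow_left q2 (by norm_num)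
      rw [mul_pow] at q3
      exact (Nat.lt_of_mul_lt_mul_left (q1.trans_lt q3)).le)
    rw [Int.natAbs_natCast] at f2
    refine f2.trans ?_
    have hgr : (0 : ℝ) < g := by
      have : 0 < g := by omega
      exact_mod_cast this
    have hWr : (0 : ℝ) < W := by exact_mod_cast hW
    have f3 : ((W / g + 1 : ℕ) : ℝ) ≤ 2 * W / g := by
      push_cast
      have r1 : ((W / g : ℕ) : ℝ) ≤ (W : ℝ) / g := Nat.cast_div_le
      have r2 : (1 : ℝ) ≤ (W : ℝ) / g := by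
        rw [one_le_div hgr]
        exact_mod_cast hg.2
      have r3 : 2 * (W : ℝ) / g = (W : ℝ) / g + (W : ℝ) / g := by ring
      rw [r3]
      exact add_le_add r1 r2
    have f4 : ((W / g + 1 : ℕ) : ℝ) ^ 2 ≤ (2 * W / g) ^ 2 :=
      pow_le_pow_left₀ (Nat.cast_nonneg _) f3 2
    have f5 : 0 ≤ Real.log ((W / g + 1 : ℕ) : ℝ) := Real.log_natCast_nonneg _
    have f6 : 1 + Real.log ((W / g + 1 : ℕ) : ℝ) ≤ 2 * (1 + Real.log W) := by
      have r1 : ((W / g + 1 : ℕ) : ℝ) ≤ 2 * W := by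
        have : W / g + 1 ≤ 2 * W := by
          have := Nat.div_le_self W g
          omega
        exact_mod_cast this
      have r2 := Real.log_le_log (by positivity) r1
      rw [Real.log_mul (by norm_num) hWr.ne'] at r2
      have r3 : Real.log 2 ≤ 1 := by
        have := Real.log_le_sub_one_of_pos (show (0 : ℝ) < 2 by norm_num)
        linarith
      linarith
    have f7 : (1 + Real.log ((W / g + 1 : ℕ) : ℝ)) ^ E ≤ 2 ^ E * (1 + Real.log W) ^ E := by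
      rw [← Real.mul_rpow (by norm_num) (by linarith)]
      exact Real.rpow_le_rpow (by linarith) f6 hE
    rw [hAQe]
    calc C1 * AQ q ^ g.primeFactors.card *
          (((W / g + 1 : ℕ) : ℝ) ^ 2 * (1 + Real.log ((W / g + 1 : ℕ) : ℝ)) ^ E)
        ≤ C1 * AQ q ^ g.primeFactors.card *
          ((2 * W / g) ^ 2 * (2 ^ E * (1 + Real.log W) ^ E)) := by
          apply mul_le_mul_of_nonneg_left _ (by positivity)
          exact mul_le_mul f4 f7 (by positivity) (by positivity)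
      _ = _ := by
          field_simp
          ring
  calc ∑ x ∈ S, ((SelR x.1 x.2).ncard : ℝ) ^ q ≤ ∑ t ∈ S.image F, SSQ q nS t.1 t.2 := by
        rw [← e2]; exact e1
    _ = ∑ g ∈ Icc 1 W, ∑ t ∈ (S.image F).filter (fun t => t.1 = g), SSQ q nS t.1 t.2 := e3.symm
    _ ≤ ∑ g ∈ Icc 1 W, (4 * 2 ^ E * C1 * ((W : ℝ) ^ 2 * (1 + Real.log W) ^ E)) *
        (((2 * 8 ^ q : ℕ) : ℝ) ^ g.primeFactors.card / (g : ℝ) ^ 2) := sum_le_sum e4
    _ = (4 * 2 ^ E * C1 * ((W : ℝ) ^ 2 * (1 + Real.log W) ^ E)) * ∑ g ∈ Icc 1 W,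
        (((2 * 8 ^ q : ℕ) : ℝ) ^ g.primeFactors.card / (g : ℝ) ^ 2) := by rw [mul_sum]
    _ ≤ (4 * 2 ^ E * C1 * ((W : ℝ) ^ 2 * (1 + Real.log W) ^ E)) * C2 :=
        mul_le_mul_of_nonneg_left (hsom W) (by positivity)
    _ = _ := by ring

/-- the moments and the number of the curves of bounded height -/
theorem disc_cv (hcomb : S_COMBK) {q : ℕ} (hq : 2 ≤ q) :
    (∃ (K : ℝ) (Z0 : ℕ), 0 ≤ K ∧ ∀ Z : ℕ, Z0 ≤ Z → ∀ S : Finset (ℤ × ℤ),
      (S : Set (ℤ × ℤ)) ⊆ DvS 2 Z → ∑ c ∈ S, ((SelR c.1 c.2).ncard : ℝ) ^ q ≤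
        K * ((Cv 2 (Z / 32)).card * (1 + Real.log Z) ^ EX q)) ∧
    ∀ Z : ℕ, ∃ K : ℝ, 0 ≤ K ∧ ∀ S : Finset (ℤ × ℤ), (S : Set (ℤ × ℤ)) ⊆ DvS 2 Z →
      ∑ c ∈ S, ((SelR c.1 c.2).ncard : ℝ) ^ q ≤ K := by
  have hE := EX_nonneg hq
  have havg : AVGNQ q (EX q) nS := avgnq_of hE (avgfq_of hE selfg
    Pool.Agent.W307.FK.cntf (mafq hq hcomb) Pool.Agent.W503.FK.subf)
  obtain ⟨C, hC, hsum⟩ := sumq hE (regnq_of hE Pool.Agent.W32.FK.covu havg)
    Pool.Agent.N199.EG.t_SOMK Pool.Agent.W513.FK.parf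
  refine ⟨finalD_absq hE (by norm_num) _ Pool.Agent.W672.FK.lowf C hC (6 ^ 12) (by norm_num) hsum,
    fun Z => ?_⟩
  have hW : 6 ^ 12 * Z ≤ (6 ^ 12 * Z + 1) ^ 6 :=
    (Nat.le_succ _).trans (Nat.le_self_pow (by norm_num) _)
  have hl : 0 ≤ Real.log ((6 ^ 12 * Z + 1 : ℕ) : ℝ) := Real.log_natCast_nonneg _
  refine ⟨C * (((6 ^ 12 * Z + 1 : ℕ) : ℝ) ^ 2 *
    (1 + Real.log ((6 ^ 12 * Z + 1 : ℕ) : ℝ)) ^ EX q), by positivity, fun S hS => ?_⟩
  exact hsum Z (6 ^ 12 * Z + 1) (Nat.le_add_left 1 _) hW S hS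

/-- **the upper bounds for the moments, ordered by the minimal discriminant** -/
theorem discq (hcomb : S_COMBK) {q : ℕ} (hq : 2 ≤ q) :
    ∃ C : ℝ, 0 ≤ C ∧ ∀ Z : ℕ, 1 ≤ Z → ∀ S : Finset (ℤ × ℤ), (S : Set (ℤ × ℤ)) = DvS 2 Z →
      ∑ c ∈ S, ((SelR c.1 c.2).ncard : ℝ) ^ q ≤ C * (S.card * (1 + Real.log Z) ^ EX q) := by
  classical
  have hE := EX_nonneg hq
  obtain ⟨⟨K, Z0, hK, h1⟩, h2⟩ := disc_cv hcomb hq
  obtain ⟨K', hK', h2⟩ := h2 Z0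
  refine ⟨K + K', by linarith, fun Z hZ S hS => ?_⟩
  have hlZ : 0 ≤ Real.log (Z : ℝ) := Real.log_natCast_nonneg Z
  have hpZ : 1 ≤ (1 + Real.log Z) ^ EX q := Real.one_le_rpow (by linarith) hE
  rcases Nat.lt_or_ge Z Z0 with hlt | hge
  · rcases Nat.eq_zero_or_pos S.card with h0 | h0
    · rw [card_eq_zero.1 h0]
      simp
    · have h3 := h2 S (by
        rw [hS]
        rintro c ⟨d1, d2, d3, d4⟩
        exact ⟨d1, d2, d3, d4.trans hlt.le⟩)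
      have h4 : (1 : ℝ) ≤ S.card := by exact_mod_cast h0
      calc _ ≤ K' := h3
        _ ≤ K' * (S.card * (1 + Real.log Z) ^ EX q) :=
          le_mul_of_one_le_right hK' (one_le_mul_of_one_le_of_one_le h4 hpZ)
        _ ≤ _ := by
          apply mul_le_mul_of_nonneg_right _ (by positivity)
          linarith
  · have h3 := h1 Z hge S hS.le
    have h4 : (Cv 2 (Z / 32)).card ≤ S.card := by
      apply card_le_card
      rw [← coe_subset, hS]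
      exact Cv_sub Pool.Agent.W554.RS.mdl 2 (Z / 32) Z (Nat.mul_div_le Z 32)
    have h5 : ((Cv 2 (Z / 32)).card : ℝ) ≤ S.card := by exact_mod_cast h4
    calc _ ≤ K * ((Cv 2 (Z / 32)).card * (1 + Real.log Z) ^ EX q) := h3
      _ ≤ K * (S.card * (1 + Real.log Z) ^ EX q) := by
        apply mul_le_mul_of_nonneg_left _ hK
        exact mul_le_mul_of_nonneg_right h5 (by positivity)
      _ ≤ _ := by
        apply mul_le_mul_of_nonneg_right _ (by positivity)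
        linarith

/-- the number of the curves of bounded minimal discriminant and of bounded height -/
theorem disc_card (hcomb : S_COMBK) : ∃ (K : ℝ) (Z0 : ℕ), 0 ≤ K ∧ ∀ Z : ℕ, Z0 ≤ Z →
    ∀ S : Finset (ℤ × ℤ), (S : Set (ℤ × ℤ)) ⊆ DvS 2 Z →
      (S.card : ℝ) ≤ K * (Cv 2 (Z / 32)).card := by
  classical
  obtain ⟨⟨K, Z0, hK, h1⟩, -⟩ := disc_cv hcomb (le_refl 2)
  refine ⟨K, Z0, hK, fun Z hZ S hS => ?_⟩
  have h2 := h1 Z hZ S hS
  have h3 : EX 2 = 0 := by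
    unfold EX
    norm_num
  rw [h3, Real.rpow_zero, mul_one] at h2
  refine le_trans ?_ h2
  have h4 : ∑ x ∈ S, (1 : ℝ) = S.card := by simp
  rw [← h4]
  refine sum_le_sum fun c hc => ?_
  obtain ⟨d1, d2, d3, d4⟩ := hS hc
  obtain ⟨F, -, hF⟩ := Pool.Agent.W513.FK.parf
  obtain ⟨g1, g2, g3, g4, g5, e1, e2, e3, g6, g7, g8⟩ := hF c d1 d3
  obtain ⟨a1, -, -⟩ := Pool.Agent.W701.FK.curve_data d1 g6 g1 g3 g4 g5 g2 g7 g8
  have b1 := Pool.Agent.W402.FK.rks c.1 c.2 e1 e2 e3 d1 g6 a1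
  have b2 : 1 ≤ (SelR c.1 c.2).ncard := le_trans Nat.one_le_two_pow b1
  have b3 : (1 : ℝ) ≤ (SelR c.1 c.2).ncard := by exact_mod_cast b2
  exact one_le_pow₀ b3

end Pool.Agent.N284.EG
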