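import Mathlib

/-!
# Project EG: comparison of the powers of the logarithms of `Z` and `Z / 32`
-/

set_option autoImplicit false

namespace Pool.Agent.N284.EG

open Filter Topology

lemma log_div32 {Z : ℕ} (hZ : 4096 ≤ Z) : 0 < Real.log Z ∧
    Real.log Z / 2 ≤ Real.log ((Z / 32 : ℕ) : ℝ) ∧ Real.log ((Z / 32 : ℕ) : ℝ) ≤ Real.log Z := by
  have hZ0 : (0 : ℝ) < Z := by exact_mod_cast (by omega : 0 < Z)
  have h1 : (0 : ℝ) < ((Z / 32 : ℕ) : ℝ) := by exact_mod_cast (by omega : 0 < Z / 32)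
  have h2 : Real.log 4096 ≤ Real.log Z :=
    Real.log_le_log (by norm_num) (by exact_mod_cast hZ)
  have h3 : Real.log 4096 = 2 * Real.log 64 := by
    rw [show (4096 : ℝ) = 64 ^ 2 by norm_num, Real.log_pow]
    norm_num
  have h4 : 0 < Real.log 64 := Real.log_pos (by norm_num)
  refine ⟨by linarith, ?_, ?_⟩
  · have h5 : (Z : ℝ) / 64 ≤ ((Z / 32 : ℕ) : ℝ) := by
      rw [div_le_iff₀ (by norm_num)]
      exact_mod_cast (by omega : Z ≤ Z / 32 * 64)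
    have h6 := Real.log_le_log (by positivity) h5
    rw [Real.log_div hZ0.ne' (by norm_num)] at h6
    linarith
  · exact Real.log_le_log h1 (by exact_mod_cast Nat.div_le_self Z 32)

lemma low_abs {e ε K : ℝ} (hε : 0 < ε) : ∃ Z1 : ℕ, ∀ Z : ℕ, Z1 ≤ Z →
    K * (Real.log Z) ^ (e - ε) ≤ (Real.log ((Z / 32 : ℕ) : ℝ)) ^ (e - ε / 2) := by
  obtain ⟨Z1, hZ1⟩ := eventually_atTop.1 (((tendsto_rpow_atTop
    (show 0 < ε / 2 by positivity)).comp (Real.tendsto_log_atTop.comp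
      (tendsto_natCast_atTop_atTop (R := ℝ)))).eventually_ge_atTop (K * 2 ^ |e - ε / 2|))
  refine ⟨Z1 + 4096, fun Z hZ => ?_⟩
  have h1 : K * 2 ^ |e - ε / 2| ≤ (Real.log (Z : ℝ)) ^ (ε / 2) := hZ1 Z (by omega)
  obtain ⟨h2, h3, h4⟩ := log_div32 (show 4096 ≤ Z by omega)
  obtain ⟨a, ha⟩ : ∃ a : ℝ, a = e - ε / 2 := ⟨_, rfl⟩
  obtain ⟨l, hl⟩ : ∃ l : ℝ, l = Real.log Z := ⟨_, rfl⟩
  obtain ⟨l', hl'⟩ : ∃ l' : ℝ, l' = Real.log ((Z / 32 : ℕ) : ℝ) := ⟨_, rfl⟩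
  rw [← ha] at h1 ⊢
  rw [← hl] at h1 h2 h3 h4 ⊢
  rw [← hl'] at h3 h4 ⊢
  have h5 : l ^ a ≤ 2 ^ |a| * l' ^ a := by
    rcases le_or_gt 0 a with h6 | h6
    · rw [abs_of_nonneg h6, ← Real.mul_rpow (by norm_num) (by linarith)]
      exact Real.rpow_le_rpow h2.le (by linarith) h6
    · have h7 : l ^ a ≤ l' ^ a := Real.rpow_le_rpow_of_nonpos (by linarith) h4 h6.le
      have h8 : (1 : ℝ) ≤ 2 ^ |a| := Real.one_le_rpow (by norm_num) (abs_nonneg a)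
      exact h7.trans (le_mul_of_one_le_left (Real.rpow_nonneg (by linarith) _) h8)
  have h6 : l ^ a = l ^ (ε / 2) * l ^ (e - ε) := by
    rw [← Real.rpow_add h2]
    congr 1
    rw [ha]
    ring
  have h7 : 0 < l ^ (e - ε) := Real.rpow_pos_of_pos h2 _
  have h8 : (0 : ℝ) < 2 ^ |a| := by positivity
  have h9 : K * 2 ^ |a| * l ^ (e - ε) ≤ 2 ^ |a| * l' ^ a := by
    refine le_trans ?_ h5
    rw [h6]
    exact mul_le_mul_of_nonneg_right h1 h7.le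
  have h10 : 2 ^ |a| * (K * l ^ (e - ε)) ≤ 2 ^ |a| * l' ^ a := by
    calc 2 ^ |a| * (K * l ^ (e - ε)) = K * 2 ^ |a| * l ^ (e - ε) := by ring
      _ ≤ _ := h9
  exact le_of_mul_le_mul_left h10 h8

end Pool.Agent.N284.EG
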