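import Pool.Agent.N870.EG.Fin
import Pool.Agent.W143.FK.Regn

/-!
# Project EG: the moments over the regions `|a b (a - b)| ≤ W ^ 3`, with a power of the logarithm

Adapted from `W143/FK/Regn.lean`: the function is cut off outside of the box of side `W ^ 3`, so
that the factor with the logarithm is bounded in the squares of all sides.
-/

set_option autoImplicit false

namespace Pool.Agent.N284.EG

open Finset Pool.Agent.W262.RK Pool.Agent.W307.RT Pool.Agent.W307.RS Pool.Agent.W307.SE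
open Pool.Agent.W307.FK Pool.Agent.N870.EG
open Pool.Agent.W143.FKRegn (aa bb mm)

/-- the moments over the regions `|a b (a - b)| ≤ W ^ 3` -/
def REGNQ (q : ℕ) (E : ℝ) : Prop := ∃ C : ℝ, 0 ≤ C ∧ ∀ D : ℤ, D ≠ 0 → ∀ W : ℕ, 1 ≤ W →
  ∀ S : Finset (ℤ × ℤ),
  (∀ t ∈ S, t.1 ≠ 0 ∧ t.2 ≠ 0 ∧ t.1 ≠ t.2 ∧ (t.1 * t.2 * (t.1 - t.2)).natAbs ≤ W ^ 3) →
    ∑ t ∈ S, SSQ q nS D t ≤
      C * AQ q ^ D.natAbs.primeFactors.card * ((W : ℝ) ^ 2 * (1 + Real.log W) ^ E)

lemma log_side {W : ℕ} (hW : 1 ≤ W) :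
    1 + Real.log ((2 * W ^ 3 + 1 : ℕ) : ℝ) ≤ 3 * (1 + Real.log W) := by
  have hW0 : (0 : ℝ) < W := by exact_mod_cast hW
  have h1 : ((2 * W ^ 3 + 1 : ℕ) : ℝ) ≤ 3 * (W : ℝ) ^ 3 := by
    have : 2 * W ^ 3 + 1 ≤ 3 * W ^ 3 := by
      have : 1 ≤ W ^ 3 := Nat.one_le_pow _ _ hW
      omega
    exact_mod_cast this
  have h2 := Real.log_le_log (by positivity) h1
  rw [Real.log_mul (by norm_num) (by positivity), Real.log_pow] at h2
  have h3 : Real.log 3 ≤ 2 := by
    have := Real.log_le_sub_one_of_pos (show (0 : ℝ) < 3 by norm_num)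
    linarith
  push_cast at h2 ⊢
  linarith

theorem regnq_of {q : ℕ} {E : ℝ} (hE : 0 ≤ E) (h1 : COVU) (h2 : AVGNQ q E nS) : REGNQ q E := by
  classical
  obtain ⟨B, C, hC, h⟩ := h1 (Fin 3) aa bb mm (by decide) (by decide) (by decide)
  obtain ⟨C', hC', h'⟩ := h2 (B + 1)
  refine ⟨C * C' * 3 ^ E, by positivity, fun D hD W hW S hS => ?_⟩
  have hAQ := AQ_pos q
  have hlW : 0 ≤ Real.log (W : ℝ) := Real.log_natCast_nonneg W
  obtain ⟨T, hT⟩ : ∃ T : ℕ, T = W ^ 3 := ⟨_, rfl⟩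
  have hT1 : 1 ≤ T := by
    rw [hT]
    exact Nat.one_le_pow _ _ hW
  obtain ⟨L, hL⟩ : ∃ L : ℝ, L = (1 + Real.log ((2 * T + 1 : ℕ) : ℝ)) ^ E := ⟨_, rfl⟩
  have hL0 : 0 ≤ Real.log ((2 * T + 1 : ℕ) : ℝ) := Real.log_natCast_nonneg _
  have hL1 : 0 ≤ L := by
    rw [hL]
    positivity
  have hLW : L ≤ 3 ^ E * (1 + Real.log W) ^ E := by
    rw [hL, ← Real.mul_rpow (by norm_num) (by linarith)]
    refine Real.rpow_le_rpow (by linarith) ?_ hE
    rw [hT]
    exact log_side hW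
  obtain ⟨A, hA⟩ : ∃ A : ℝ, A = C' * AQ q ^ D.natAbs.primeFactors.card * L := ⟨_, rfl⟩
  have hA0 : 0 ≤ A := by
    rw [hA]
    positivity
  -- the function which is cut off
  obtain ⟨g, hg⟩ : ∃ g : ℤ × ℤ → ℝ, g = fun t => if t ∈ Box T then SSQ q nS D t else 0 :=
    ⟨_, rfl⟩
  have hg0 : ∀ t, 0 ≤ g t := by
    intro t
    rw [hg]
    simp only
    split_ifs
    · exact SSQ_nonneg q D t
    · exact le_rfl
  have hgS : ∀ t, g t ≤ SSQ q nS D t := by
    intro t
    rw [hg]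
    simp only
    split_ifs
    · exact le_rfl
    · exact SSQ_nonneg q D t
  have hsq : ∀ (N1 N2 : ℤ) (X : ℕ), 1 ≤ X → N1.natAbs ≤ X ^ B → N2.natAbs ≤ X ^ B →
      ∑ t ∈ Icc 1 X ×ˢ Icc 1 X, g (N1 + (t.1 : ℤ), N2 + (t.2 : ℤ)) ≤ A * X ^ 2 := by
    intro N1 N2 X hX b1 b2
    have hXB : X ^ B ≤ X ^ (B + 1) := Nat.pow_le_pow_right hX (by omega)
    rcases Nat.lt_or_ge (2 * T + 1) X with hlt | hge
    · -- long squares: the support is in one square
      have e1 : ∑ t ∈ Icc 1 X ×ˢ Icc 1 X, g (N1 + (t.1 : ℤ), N2 + (t.2 : ℤ)) ≤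
          ∑ t ∈ Box T, g t := by
        have hinj : Set.InjOn (fun t : ℕ × ℕ => ((N1 + (t.1 : ℤ), N2 + (t.2 : ℤ)) : ℤ × ℤ))
            (Icc 1 X ×ˢ Icc 1 X : Finset (ℕ × ℕ)) := by
          intro t _ t' _ htt
          simp only [Prod.mk.injEq] at htt
          ext <;> omega
        rw [← sum_image (f := g) hinj]
        rw [← sum_filter_add_sum_filter_not ((Icc 1 X ×ˢ Icc 1 X).image
          (fun t : ℕ × ℕ => ((N1 + (t.1 : ℤ), N2 + (t.2 : ℤ)) : ℤ × ℤ))) (fun t => t ∈ Box T)]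
        have z0 : ∑ t ∈ ((Icc 1 X ×ˢ Icc 1 X).image
            (fun t : ℕ × ℕ => ((N1 + (t.1 : ℤ), N2 + (t.2 : ℤ)) : ℤ × ℤ))).filter
              (fun t => ¬ t ∈ Box T), g t = 0 := by
          apply sum_eq_zero
          intro t ht
          rw [hg]
          simp only
          rw [if_neg (mem_filter.1 ht).2]
        rw [z0, add_zero]
        exact sum_le_sum_of_subset_of_nonneg (fun t ht => (mem_filter.1 ht).2)
          fun t _ _ => hg0 t
      have e2 : ∑ t ∈ Box T, g t ≤ C' * AQ q ^ D.natAbs.primeFactors.card *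
          (((2 * T + 1 : ℕ) : ℝ) ^ 2 * L) := by
        refine (sum_le_sum fun t _ => hgS t).trans ?_
        refine box_one hT1 fun M1 M2 Y hY c1 c2 => ?_
        have hY1 : 1 ≤ Y := by omega
        have hYB : Y ^ 1 ≤ Y ^ (B + 1) := Nat.pow_le_pow_right hY1 (by omega)
        have h3 := h' D M1 M2 Y hD hY1 (c1.trans hYB) (c2.trans hYB)
        rw [hY] at h3 ⊢
        rw [hL]
        exact h3
      refine e1.trans (e2.trans ?_)
      have h4 : ((2 * T + 1 : ℕ) : ℝ) ≤ X := by exact_mod_cast hlt.le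
      have h5 : ((2 * T + 1 : ℕ) : ℝ) ^ 2 ≤ (X : ℝ) ^ 2 :=
        pow_le_pow_left₀ (Nat.cast_nonneg _) h4 2
      calc C' * AQ q ^ D.natAbs.primeFactors.card * (((2 * T + 1 : ℕ) : ℝ) ^ 2 * L)
          ≤ C' * AQ q ^ D.natAbs.primeFactors.card * ((X : ℝ) ^ 2 * L) := by
            apply mul_le_mul_of_nonneg_left _ (by positivity)
            exact mul_le_mul_of_nonneg_right h5 hL1
        _ = A * X ^ 2 := by
            rw [hA]
            ring
    · -- short squares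
      have h3 := h' D N1 N2 X hD hX (b1.trans hXB) (b2.trans hXB)
      have hX0 : (0 : ℝ) < X := by exact_mod_cast hX
      have hlX : 0 ≤ Real.log (X : ℝ) := Real.log_natCast_nonneg X
      have h4 : (1 + Real.log X) ^ E ≤ L := by
        rw [hL]
        refine Real.rpow_le_rpow (by linarith) ?_ hE
        have := Real.log_le_log hX0 (show (X : ℝ) ≤ ((2 * T + 1 : ℕ) : ℝ) by exact_mod_cast hge)
        linarith
      calc ∑ t ∈ Icc 1 X ×ˢ Icc 1 X, g (N1 + (t.1 : ℤ), N2 + (t.2 : ℤ))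
          ≤ ∑ t ∈ Icc 1 X ×ˢ Icc 1 X, SSQ q nS D (N1 + (t.1 : ℤ), N2 + (t.2 : ℤ)) :=
            sum_le_sum fun t _ => hgS _
        _ ≤ C' * AQ q ^ D.natAbs.primeFactors.card * (X ^ 2 * (1 + Real.log X) ^ E) := h3
        _ ≤ C' * AQ q ^ D.natAbs.primeFactors.card * ((X : ℝ) ^ 2 * L) := by
            apply mul_le_mul_of_nonneg_left _ (by positivity)
            exact mul_le_mul_of_nonneg_left h4 (by positivity)
        _ = A * X ^ 2 := by
            rw [hA]
            ring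
  have h3 := h g A hA0 hg0 hsq W hW S (fun t ht => ?_)
  · have e1 : ∑ t ∈ S, SSQ q nS D t = ∑ t ∈ S, g t := by
      apply sum_congr rfl
      intro t ht
      obtain ⟨k1, k2, k3, k4⟩ := hS t ht
      rw [hg]
      simp only
      rw [if_pos]
      rw [mem_Box, hT]
      rw [Int.natAbs_mul, Int.natAbs_mul] at k4
      have n1 : 1 ≤ t.1.natAbs := Int.natAbs_pos.2 k1
      have n2 : 1 ≤ t.2.natAbs := Int.natAbs_pos.2 k2
      have n3 : 1 ≤ (t.1 - t.2).natAbs := Int.natAbs_pos.2 (sub_ne_zero.2 k3)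
      constructor
      · calc t.1.natAbs ≤ t.1.natAbs * t.2.natAbs := Nat.le_mul_of_pos_right _ n2
          _ ≤ t.1.natAbs * t.2.natAbs * (t.1 - t.2).natAbs := Nat.le_mul_of_pos_right _ n3
          _ ≤ W ^ 3 := k4
      · calc t.2.natAbs ≤ t.1.natAbs * t.2.natAbs := Nat.le_mul_of_pos_left _ n1
          _ ≤ t.1.natAbs * t.2.natAbs * (t.1 - t.2).natAbs := Nat.le_mul_of_pos_right _ n3
          _ ≤ W ^ 3 := k4
    rw [e1]
    refine h3.trans ?_
    rw [hA]
    calc C * (C' * AQ q ^ D.natAbs.primeFactors.card * L) * (W : ℝ) ^ 2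
        ≤ C * (C' * AQ q ^ D.natAbs.primeFactors.card * (3 ^ E * (1 + Real.log W) ^ E)) *
          (W : ℝ) ^ 2 := by
          apply mul_le_mul_of_nonneg_right _ (by positivity)
          apply mul_le_mul_of_nonneg_left _ hC
          exact mul_le_mul_of_nonneg_left hLW (by positivity)
      _ = _ := by ring
  · obtain ⟨k1, k2, k3, k4⟩ := hS t ht
    have e0 : fv aa bb t.1 t.2 0 = t.1 := by simp [fv, aa, bb]
    have e1 : fv aa bb t.1 t.2 1 = t.2 := by simp [fv, aa, bb]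
    have e2 : fv aa bb t.1 t.2 2 = t.1 - t.2 := by simp [fv, aa, bb]; ring
    constructor
    · intro j
      fin_cases j
      · exact e0.trans_ne k1
      · exact e1.trans_ne k2
      · exact e2.trans_ne (sub_ne_zero.2 k3)
    · have hs : ∑ i, mm i = 3 := by decide
      have h0 : mm 0 = 1 := by decide
      have h1' : mm 1 = 1 := by decide
      have h2' : mm 2 = 1 := by decide
      rw [hs, Fin.prod_univ_three, e0, e1, e2, h0, h1', h2', pow_one, pow_one, pow_one,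
        ← Int.natAbs_mul, ← Int.natAbs_mul]
      exact k4

end Pool.Agent.N284.EG
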